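import Pool.Agent.T6.H53.NB.Main

set_option autoImplicit false

open MeasureTheory

namespace Pool.Agent.Results.MP_70f7a7_an.TripleCollision

/-- The space `R³`. -/
abbrev R3 : Type := EuclideanSpace ℝ (Fin 3)

/-- Phase space: pairs (positions, momenta) of `N` bodies. -/
abbrev Phase (N : ℕ) : Type := (Fin N → R3) × (Fin N → R3)

/-- Kinetic energy of the momenta `p`. -/
noncomputable def kinetic {N : ℕ} (m : Fin N → ℝ) (p : Fin N → R3) : ℝ :=
  ∑ i, ‖p i‖ ^ 2 / (2 * m i)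

/-- The Newtonian potential `U(q) = ∑_{i<j} m_i m_j / |q_i - q_j|` (the energy is
kinetic energy minus `U`). -/
noncomputable def potential {N : ℕ} (m : Fin N → ℝ) (q : Fin N → R3) : ℝ :=
  ∑ i, ∑ j, m i * m j / ‖q i - q j‖ / 2

/-- The energy surface `H = E` of the reduced `N`-body problem (centre of mass `0`, total
momentum `0`, no collisions). -/
def surface {N : ℕ} (m : Fin N → ℝ) (E : ℝ) : Set (Phase N) :=
  {x | (∀ i j, i ≠ j → x.1 i ≠ x.1 j) ∧ ∑ i, m i • x.1 i = 0 ∧ ∑ i, x.2 i = 0 ∧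
    kinetic m x.2 - potential m x.1 = E}

/-- `φ` is the complete flow on the energy surface obtained from the `N`-body flow by a smooth
positive change of time `ψ`. -/
structure IsReparametrizedFlow {N : ℕ} (m : Fin N → ℝ) (E : ℝ) (ψ : Phase N → ℝ)
    (φ : ℝ → Phase N → Phase N) : Prop where
  /-- `ψ` is smooth outside collisions -/
  smooth : ContDiffOn ℝ ((⊤ : ℕ∞) : WithTop ℕ∞) ψ {x | ∀ i j, i ≠ j → x.1 i ≠ x.1 j}
  /-- `ψ` is positive outside collisions -/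
  pos : ∀ x : Phase N, (∀ i j, i ≠ j → x.1 i ≠ x.1 j) → 0 < ψ x
  /-- orbits exist for all times and solve the reparametrized equations of motion -/
  flow : ∀ x ∈ surface m E, φ 0 x = x ∧ ∀ t : ℝ, φ t x ∈ surface m E ∧
    HasDerivAt (fun s : ℝ => φ s x)
      (ψ (φ t x) • ((fun i => (m i)⁻¹ • (φ t x).2 i),
        (fun i => ∑ j, (m i * m j / ‖(φ t x).1 j - (φ t x).1 i‖ ^ 3) •
          ((φ t x).1 j - (φ t x).1 i)))) t

/-- `x` is a nonwandering point of the flow `φ` on the energy surface `S`. -/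
def IsNonwandering {N : ℕ} (S : Set (Phase N)) (φ : ℝ → Phase N → Phase N) (x : Phase N) : Prop :=
  ∀ V : Set (Phase N), IsOpen V → x ∈ V → ∀ T : ℝ, ∃ t : ℝ, T < t ∧ ∃ y ∈ V ∩ S, φ t y ∈ V

/-- The size `|q| = (∑ m_i |q_i|²)^(1/2)` of the configuration `q`. -/
noncomputable def size {N : ℕ} (m : Fin N → ℝ) (q : Fin N → R3) : ℝ :=
  Real.sqrt (∑ i, m i * ‖q i‖ ^ 2)

/-- The square `|c|²` of the total angular momentum `c = ∑ q_i × p_i`. -/
noncomputable def angularSq {N : ℕ} (x : Phase N) : ℝ :=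
  (∑ i, (x.1 i 1 * x.2 i 2 - x.1 i 2 * x.2 i 1)) ^ 2 +
    (∑ i, (x.1 i 2 * x.2 i 0 - x.1 i 0 * x.2 i 2)) ^ 2 +
    (∑ i, (x.1 i 0 * x.2 i 1 - x.1 i 1 * x.2 i 0)) ^ 2

theorem result (m : Fin 3 → ℝ) (hm : ∀ i, 0 < m i) :
    ∃ C : ℝ, 0 < C ∧ ∀ (E : ℝ) (ψ : Phase 3 → ℝ) (φ : ℝ → Phase 3 → Phase 3),
      IsReparametrizedFlow m E ψ φ → ∀ x ∈ surface m E, IsNonwandering (surface m E) φ x →
        angularSq x ≤ (C + 2 * Real.sqrt (angularSq x * (-2 * E))) * size m x.1 := by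
  obtain ⟨C, hC, h⟩ := Pool.Agent.T6.H53.NB.main m hm
  refine ⟨C, hC, ?_⟩
  intro E ψ φ hφ x hx hNW
  have hfl : Pool.Agent.Y516.NW.IsFl m E ψ φ := ⟨hφ.smooth.continuousOn, hφ.pos, hφ.flow⟩
  obtain ⟨-, h2, -, -⟩ := h E ψ φ hφ.smooth hfl x hx hNW 0
  have h0 : φ 0 x = x := (hφ.flow x hx).1
  rw [h0] at h2
  exact h2

end Pool.Agent.Results.MP_70f7a7_an.TripleCollision
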