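import Pool.Agent.T6.H52.NW.Fin
import Pool.Agent.Y438.NW.Pos

set_option autoImplicit false

open MeasureTheory

namespace Pool.Agent.Results.MP_70f7a7_an.TwoTimeDirections

/-- The space `R³`. -/
abbrev R3 : Type := EuclideanSpace ℝ (Fin 3)

/-- Phase space: pairs (positions, momenta) of `N` bodies. -/
abbrev Phase (N : ℕ) : Type := (Fin N → R3) × (Fin N → R3)

/-- Kinetic energy of the momenta `p`. -/
noncomputable def kinetic {N : ℕ} (m : Fin N → ℝ) (p : Fin N → R3) : ℝ :=
  ∑ i, ‖p i‖ ^ 2 / (2 * m i)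

/-- The Newtonian potential `U(q) = ∑_{i<j} m_i m_j / |q_i - q_j|` (the energy is
kinetic energy minus `U`). -/
noncomputable def potential {N : ℕ} (m : Fin N → ℝ) (q : Fin N → R3) : ℝ :=
  ∑ i, ∑ j, m i * m j / ‖q i - q j‖ / 2

/-- The energy surface `H = E` of the reduced `N`-body problem (centre of mass `0`, total
momentum `0`, no collisions). -/
def surface {N : ℕ} (m : Fin N → ℝ) (E : ℝ) : Set (Phase N) :=
  {x | (∀ i j, i ≠ j → x.1 i ≠ x.1 j) ∧ ∑ i, m i • x.1 i = 0 ∧ ∑ i, x.2 i = 0 ∧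
    kinetic m x.2 - potential m x.1 = E}

/-- `φ` is the complete flow on the energy surface obtained from the `N`-body flow by a smooth
positive change of time `ψ`. -/
structure IsReparametrizedFlow {N : ℕ} (m : Fin N → ℝ) (E : ℝ) (ψ : Phase N → ℝ)
    (φ : ℝ → Phase N → Phase N) : Prop where
  /-- `ψ` is smooth outside collisions -/
  smooth : ContDiffOn ℝ ((⊤ : ℕ∞) : WithTop ℕ∞) ψ {x | ∀ i j, i ≠ j → x.1 i ≠ x.1 j}
  /-- `ψ` is positive outside collisions -/
  pos : ∀ x : Phase N, (∀ i j, i ≠ j → x.1 i ≠ x.1 j) → 0 < ψ x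
  /-- orbits exist for all times and solve the reparametrized equations of motion -/
  flow : ∀ x ∈ surface m E, φ 0 x = x ∧ ∀ t : ℝ, φ t x ∈ surface m E ∧
    HasDerivAt (fun s : ℝ => φ s x)
      (ψ (φ t x) • ((fun i => (m i)⁻¹ • (φ t x).2 i),
        (fun i => ∑ j, (m i * m j / ‖(φ t x).1 j - (φ t x).1 i‖ ^ 3) •
          ((φ t x).1 j - (φ t x).1 i)))) t

/-- `x` is a nonwandering point of the flow `φ` on the energy surface `S`. -/
def IsNonwandering {N : ℕ} (S : Set (Phase N)) (φ : ℝ → Phase N → Phase N) (x : Phase N) : Prop :=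
  ∀ V : Set (Phase N), IsOpen V → x ∈ V → ∀ T : ℝ, ∃ t : ℝ, T < t ∧ ∃ y ∈ V ∩ S, φ t y ∈ V

/-- The momenta `(P_1, ..., P_n, -P_1 - ... - P_n)` of `n + 1` bodies. -/
noncomputable def momenta {n : ℕ} (P : Fin n → R3) : Fin (n + 1) → R3 := Fin.snoc P (-∑ i, P i)

/-- The same momenta scaled so that their kinetic energy is `K`. -/
noncomputable def scaled {n : ℕ} (m : Fin (n + 1) → ℝ) (K : ℝ) (P : Fin n → R3) :
    Fin (n + 1) → R3 :=
  Real.sqrt (K / kinetic m (momenta P)) • momenta P

/-- For vectors `u_i` attached to the bodies: the vector attached to the cluster of the body `i`,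
where the clusters are the pair `{a, b}` (mass-weighted mean of `u_a` and `u_b`) and the other
bodies. -/
noncomputable def cluster {N : ℕ} (m : Fin N → ℝ) (a b : Fin N) (u : Fin N → R3) (i : Fin N) :
    R3 :=
  if i = a ∨ i = b then (m a + m b)⁻¹ • (m a • u a + m b • u b) else u i

/-- Position of the cluster of `i` relative to the cluster of `j`. -/
noncomputable def relPos {N : ℕ} (m : Fin N → ℝ) (a b : Fin N) (x : Phase N) (i j : Fin N) : R3 :=
  cluster m a b x.1 i - cluster m a b x.1 j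

/-- Velocity of the cluster of `i` relative to the cluster of `j`. -/
noncomputable def relVel {N : ℕ} (m : Fin N → ℝ) (a b : Fin N) (x : Phase N) (i j : Fin N) : R3 :=
  cluster m a b (fun k => (m k)⁻¹ • x.2 k) i - cluster m a b (fun k => (m k)⁻¹ • x.2 k) j

/-- The unordered pair `{i, j}` consists of bodies of different clusters. -/
def Apart {N : ℕ} (a b i j : Fin N) : Prop :=
  i ≠ j ∧ ¬(i = a ∧ j = b) ∧ ¬(i = b ∧ j = a)

/-- A representative of the cluster of the body `i`. -/
def rep {N : ℕ} (a b i : Fin N) : Fin N := if i = b then a else i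

/-- `{i, j}` and `{k, l}` give different unordered pairs of clusters. -/
def OtherPair {N : ℕ} (a b i j k l : Fin N) : Prop :=
  ¬(rep a b i = rep a b k ∧ rep a b j = rep a b l) ∧
    ¬(rep a b i = rep a b l ∧ rep a b j = rep a b k)

/-- The component of `V` orthogonal to `X` is shorter than `w`. -/
def AlmostParallel (w : ℝ) (X V : R3) : Prop :=
  ‖X‖ ^ 2 * ‖V‖ ^ 2 - (inner ℝ X V) ^ 2 < w ^ 2 * ‖X‖ ^ 2

theorem three : ∀ a b i j k l : Fin 3, a ≠ b →
    (i ≠ j ∧ ¬(i = a ∧ j = b) ∧ ¬(i = b ∧ j = a)) →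
    (k ≠ l ∧ ¬(k = a ∧ l = b) ∧ ¬(k = b ∧ l = a)) →
    ¬(¬((if i = b then a else i) = (if k = b then a else k) ∧
        (if j = b then a else j) = (if l = b then a else l)) ∧
      ¬((if i = b then a else i) = (if l = b then a else l) ∧
        (if j = b then a else j) = (if k = b then a else k))) := by
  decide

theorem result (n : ℕ) (hn : 2 ≤ n) (m : Fin (n + 1) → ℝ) (hm : ∀ i, 0 < m i) :
    ∃ C : ℝ, 0 < C ∧ ∀ (E : ℝ) (ψ : Phase (n + 1) → ℝ)
      (φ : ℝ → Phase (n + 1) → Phase (n + 1)), IsReparametrizedFlow m E ψ φ →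
      ∀ q : Fin (n + 1) → R3, (∀ i j, i ≠ j → q i ≠ q j) → ∑ i, m i • q i = 0 →
      ∀ a b : Fin (n + 1), a ≠ b → ∀ δ : ℝ, 0 < δ →
      (∀ i j, Apart a b i j → δ ≤ ‖q i - q j‖) →
      -- (1) the nonwandering momenta at `q`
      (‖q a - q b‖ ≤ δ / 128 → ∀ p : Fin (n + 1) → R3, (q, p) ∈ surface m E →
        IsNonwandering (surface m E) φ (q, p) →
        ((∃ i j, Apart a b i j ∧ ‖relVel m a b (q, p) i j‖ < Real.sqrt (C / δ)) ∨
        ∃ i j k l, Apart a b i j ∧ Apart a b k l ∧ OtherPair a b i j k l ∧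
          AlmostParallel (Real.sqrt (C / δ)) (relPos m a b (q, p) i j) (relVel m a b (q, p) i j) ∧
          inner ℝ (relPos m a b (q, p) i j) (relVel m a b (q, p) i j) < 0 ∧
          AlmostParallel (Real.sqrt (C / δ)) (relPos m a b (q, p) k l) (relVel m a b (q, p) k l) ∧
          0 < inner ℝ (relPos m a b (q, p) k l) (relVel m a b (q, p) k l)) ∧
        (n = 2 → ∀ c, c ≠ a → c ≠ b → ‖relVel m a b (q, p) a c‖ < Real.sqrt (C / δ))) ∧
      -- (2) the proportion of nonwandering momenta at `q`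
      (0 < potential m q + E →
        volume {P : Fin n → R3 | kinetic m (momenta P) ≤ 1 ∧
            IsNonwandering (surface m E) φ (q, scaled m (potential m q + E) P)} ≤
          ENNReal.ofReal ((C / (δ * (potential m q + E))) ^ (3 / 2 : ℝ)) *
            volume {P : Fin n → R3 | kinetic m (momenta P) ≤ 1}) := by
  obtain ⟨C2, hC2, h2⟩ := Pool.Agent.T6.H52.NW.prop2 n hn m hm
  obtain ⟨μ, hμ, hμm⟩ : ∃ μ : ℝ, 0 < μ ∧ ∀ i, μ ≤ m i := by
    obtain ⟨μi, _, hμi⟩ := Finset.exists_min_image Finset.univ m ⟨0, Finset.mem_univ _⟩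
    exact ⟨m μi, hm μi, fun i => hμi i (Finset.mem_univ _)⟩
  obtain ⟨M, hMdef⟩ : ∃ M : ℝ, M = ∑ i, m i := ⟨_, rfl⟩
  have hM : 0 < M := by
    rw [hMdef]; exact Finset.sum_pos (fun i _ => hm i) ⟨0, Finset.mem_univ _⟩
  have hA : 0 < 16000 * (M + M ^ 2 / μ) := by positivity
  obtain ⟨C, hCdef⟩ : ∃ C : ℝ, C = max C2 (16000 * (M + M ^ 2 / μ)) := ⟨_, rfl⟩
  have hC : 0 < C := hCdef ▸ lt_max_of_lt_left hC2
  have hCC2 : C2 ≤ C := hCdef ▸ le_max_left _ _
  have hCA : 16000 * (M + M ^ 2 / μ) ≤ C := hCdef ▸ le_max_right _ _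
  refine ⟨C, hC, ?_⟩
  intro E ψ φ hφ q hq hcen a b hab δ hδ hδq
  have hfl : Pool.Agent.Y516.NW.IsFl m E ψ φ := ⟨hφ.smooth.continuousOn, hφ.pos, hφ.flow⟩
  refine ⟨?_, ?_⟩
  · intro hr p hp hNW
    have hE : E ≤ 0 := by
      by_contra hE
      exact Pool.Agent.Y438.NW.pos (n + 1) m hm E (not_le.mp hE) ψ φ hfl (q, p) hp hNW
    have hw : 0 < Real.sqrt (C / δ) := Real.sqrt_pos.mpr (by positivity)
    have hpt := Pool.Agent.T6.H52.NW.pointwise hn m M μ hμ hμm hMdef.ge E hE ψ φ hfl (q, p) hp hNW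
      a b hab (Real.sqrt (C / δ)) δ hw hδ
      (by rw [Real.sq_sqrt (by positivity), div_mul_cancel₀ _ hδ.ne']; exact hCA) hδq hr
    refine ⟨hpt, ?_⟩
    rintro rfl c hca hcb
    have hac : Pool.Agent.Y516.NW.P2 a b a c := ⟨hca.symm, fun h => hcb h.2, fun h => hab h.1⟩
    rcases hpt with ⟨i, j, hP, h1⟩ | ⟨i, j, k, l, hP, hP', hD, _⟩
    · have hnd : ¬ Pool.Agent.T6.H52.NW.Diff a b i j a c := three a b i j a c hab hP hac
      rcases Pool.Agent.T6.H52.NW.same m a b i j a c hnd (fun _ => 0)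
        (Pool.Agent.Y516.NW.vel m (q, p)) with ⟨_, e⟩ | ⟨_, e⟩
      · show ‖Pool.Agent.Y516.NW.cm m a b (Pool.Agent.Y516.NW.vel m (q, p)) a -
          Pool.Agent.Y516.NW.cm m a b (Pool.Agent.Y516.NW.vel m (q, p)) c‖ < _
        rw [e]; exact h1
      · show ‖Pool.Agent.Y516.NW.cm m a b (Pool.Agent.Y516.NW.vel m (q, p)) a -
          Pool.Agent.Y516.NW.cm m a b (Pool.Agent.Y516.NW.vel m (q, p)) c‖ < _
        rw [e, norm_neg]; exact h1
    · exact absurd hD (three a b i j k l hab hP hP')
  · intro hK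
    rcases le_or_gt E 0 with hE | hE
    · refine (h2 E hE ψ φ hfl q hq hcen a b hab δ hδ hδq hK).trans ?_
      refine mul_le_mul_left (ENNReal.ofReal_le_ofReal ?_) _
      have hK' : 0 < Pool.Agent.Y516.NW.pot m q + E := hK
      refine Real.rpow_le_rpow (by positivity) ?_ (by norm_num)
      exact div_le_div_of_nonneg_right hCC2 (by positivity)
    · refine le_trans (le_of_eq ?_) (zero_le)
      have hP := Pool.Agent.Y438.NW.pos (n + 1) m hm E hE ψ φ hfl
      refine measure_mono_null (t := {P : Fin n → R3 | P = 0}) ?_ ?_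
      · rintro P ⟨_, hP2⟩
        by_contra hne
        have hkin0 : 0 ≤ kinetic m (momenta P) := Finset.sum_nonneg fun i _ => by
          have := hm i; positivity
        have hkin : 0 < kinetic m (momenta P) := by
          refine lt_of_le_of_ne hkin0 fun h0 => hne ?_
          have hz : ∀ i, momenta P i = 0 := by
            intro i
            have h1 := (Finset.sum_eq_zero_iff_of_nonneg (fun i _ => by
              have := hm i; positivity)).mp h0.symm i (Finset.mem_univ i)
            have h2 : ‖momenta P i‖ ^ 2 = 0 := by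
              rcases div_eq_zero_iff.mp h1 with h | h
              · exact h
              · have := hm i; linarith
            exact norm_eq_zero.mp (pow_eq_zero_iff (by norm_num) |>.mp h2)
          funext k
          have := hz k.castSucc
          simpa [momenta, Fin.snoc_castSucc] using this
        refine hP _ ?_ hP2
        refine ⟨hq, hcen, ?_, ?_⟩
        · have : ∑ i, (scaled m (potential m q + E) P) i =
              Real.sqrt ((potential m q + E) / kinetic m (momenta P)) • ∑ i, momenta P i := by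
            rw [Finset.smul_sum]; rfl
          show ∑ i, (scaled m (potential m q + E) P) i = 0
          rw [this]
          have h0 : ∑ i, momenta P i = 0 := Pool.Agent.Y516.NW.mom_sum P
          rw [h0, smul_zero]
        · have h1 : ∑ i, ‖(scaled m (potential m q + E) P) i‖ ^ 2 / (2 * m i) =
              (potential m q + E) / kinetic m (momenta P) * kinetic m (momenta P) := by
            rw [← Real.sq_sqrt (div_nonneg hK.le hkin0)]
            simp only [kinetic]
            rw [Finset.mul_sum]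
            refine Finset.sum_congr rfl fun i _ => ?_
            simp only [scaled, Pi.smul_apply, norm_smul, Real.norm_eq_abs, mul_pow, sq_abs]
            rw [mul_div_assoc]
            rfl
          show ∑ i, ‖(scaled m (potential m q + E) P) i‖ ^ 2 / (2 * m i) - potential m q = E
          rw [h1, div_mul_cancel₀ _ hkin.ne']
          ring
      · have h1 : {P : Fin n → R3 | P = 0} = {0} := rfl
        rw [h1]
        have h2 : Nonempty (Fin n) := ⟨⟨0, by omega⟩⟩
        have h3 : (⊥ : Submodule ℝ (Fin n → R3)) ≠ ⊤ := bot_ne_top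
        exact Measure.addHaar_submodule volume _ h3

end Pool.Agent.Results.MP_70f7a7_an.TwoTimeDirections
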